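import Pool.Agent.X112.GS.Fin

/-!
# The blocks of `L` spacings of the zeta zeros follow more than `L` patterns

Let `0 < γ_1 ≤ γ_2 ≤ …` be the ordinates of the nontrivial zeros of the zeta function, with
multiplicity, and `d_j = (γ_{j+1} log γ_{j+1} - γ_j log γ_j) / 2π` the normalised spacings.  No
hypothesis is assumed.  The Alternative Hypothesis says that `d_j` is asymptotically a positive
half-integer, so that the blocks `(d_n, …, d_{n+L-1})` follow patterns of half-integers.  We prove that
for no `L` these blocks can follow only `L` patterns: there is `ε > 0` such that for all large `N` and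
any `L` points of `ℝ^L`, which may depend on `N`, the block is at distance at least `ε` from all of them
for at least `ε N` of the `n ≤ N`.  So if the Alternative Hypothesis is true, then for every `L` more
than `L` patterns of `L` half-integers are needed for almost all blocks of `L` spacings.

Idea of the proof.  The sums of `r` consecutive spacings are not concentrated (their fluctuations
tend to infinity with `r`, by Selberg's method) whereas they are `r + o(r)` for most `n`; hence for
no `Q` the spacings are approximately `Q`-periodic for most `n`.  Few patterns force approximate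
periods by an approximate form of the theorem of Morse and Hedlund.
-/

set_option autoImplicit false

open Filter Finset

namespace Pool.Agent.Results.MP_f0209c_nt.MorePatternsThanLength

/-- multiplicity of `s` as a zero of the Riemann zeta function (order of vanishing at `s`) -/
noncomputable def zmult (s : ℂ) : ℕ := analyticOrderNatAt riemannZeta s

/-- the number of nontrivial zeros of `ζ` with ordinate in `(0, t]`, with multiplicity -/
noncomputable def NZ (t : ℝ) : ℕ :=
  ∑ᶠ s ∈ {s : ℂ | riemannZeta s = 0 ∧ 0 < s.re ∧ s.re < 1 ∧ 0 < s.im ∧ s.im ≤ t}, zmult s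

/-- for `j ≥ 1`: the `j`-th positive ordinate `γ j` of a nontrivial zero of `ζ`, the ordinates being
listed in nondecreasing order and repeated according to multiplicity -/
noncomputable def γ (j : ℕ) : ℝ := sInf {t : ℝ | j ≤ NZ t}

/-- the normalised spacings `d_j = γ_{j+1} log γ_{j+1} / 2π - γ_j log γ_j / 2π` -/
noncomputable def d (j : ℕ) : ℝ :=
  γ (j + 1) * Real.log (γ (j + 1)) / (2 * Real.pi) - γ j * Real.log (γ j) / (2 * Real.pi)

/-- **Theorem** (no hypothesis).  For every `L ≥ 1` there is `ε > 0` such that for all large `N` and any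
`L` points `v_0, …, v_{L-1}` of `ℝ^L`, for at least `ε N` of the `n ≤ N` the block
`(d_n, …, d_{n+L-1})` is at distance at least `ε` (maximum norm) from all of them. -/
theorem result (L : ℕ) (hL : 1 ≤ L) :
    ∃ ε : ℝ, 0 < ε ∧ ∀ᶠ N : ℕ in atTop, ∀ v : Fin L → Fin L → ℝ,
      ε * N ≤ ({n : ℕ | 1 ≤ n ∧ n ≤ N ∧ ∀ j : Fin L, ∃ i : Fin L,
        ε ≤ |d (n + i) - v j i|}.ncard : ℝ) := by
  classical
  have key : ∀ (N : ℕ) (p : ℕ → Prop) [DecidablePred p],
      {n : ℕ | 1 ≤ n ∧ n ≤ N ∧ p n}.ncard = ((Icc 1 N).filter p).card := by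
    intro N p _
    rw [← Set.ncard_coe_finset]
    congr 1
    ext n
    simp [and_assoc]
  obtain ⟨ε, hε, h⟩ := Pool.Agent.X112.GS.pats L hL
  refine ⟨ε, hε, h.mono fun N hN v => ?_⟩
  rw [key N (fun n => ∀ j : Fin L, ∃ i : Fin L, ε ≤ |d (n + i) - v j i|)]
  have h1 := hN (fun j i => if h : j < L ∧ i < L then v ⟨j, h.1⟩ ⟨i, h.2⟩ else 0)
  refine h1.trans ?_
  have h2 : (Icc 1 N).filter (fun n => ∀ j < L, ∃ i < L, ε ≤ |Pool.Agent.X112.GS.inc
      Pool.Agent.X112.GS.yy (n + i) - (if h : j < L ∧ i < L then v ⟨j, h.1⟩ ⟨i, h.2⟩ else 0)|) ⊆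
      (Icc 1 N).filter (fun n => ∀ j : Fin L, ∃ i : Fin L, ε ≤ |d (n + i) - v j i|) := by
    intro n hn
    rw [Finset.mem_filter] at hn ⊢
    refine ⟨hn.1, fun j => ?_⟩
    obtain ⟨i, hi, h3⟩ := hn.2 j j.2
    rw [dif_pos ⟨j.2, hi⟩] at h3
    exact ⟨⟨i, hi⟩, h3⟩
  exact_mod_cast Finset.card_le_card h2

end Pool.Agent.Results.MP_f0209c_nt.MorePatternsThanLength
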