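import Pool.Agent.U403.FSZ

/-!
# The spacings of the zeta zeros have no finite-state model

On the Riemann hypothesis let `d_j` be the normalised spacings, and let `e` be any real sequence with
`d_j - e_j → 0`: for instance `e = d`, or, if the Alternative Hypothesis (AH) holds, the half-integers
`e_j` nearest to `d_j`.  Suppose that along some sequence `N_k → ∞` the laws of the blocks
`e_n, …, e_{n+m}`, `n ≤ N_k`, converge to probability laws `lam m`, for every `m` (any limit
process).  Then

(1) the second moment of the centred sum of the `m + 1` coordinates under `lam m` is finite and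
    asymptotic to `(1/π²) log m`;
(2) these second moments do not satisfy any linear recurrence with constant coefficients;
(3) the limit is not a hidden Markov process with finitely many hidden states (stationary or not,
    reducible or not) and arbitrary square-integrable distributions of the observed values; so it is
    not a function of a finite Markov chain, and an AH pattern of half-integers cannot be generated by
    a finite-state random mechanism;
(4) the limit is not a weakly stationary process whose covariances satisfy a linear recurrence from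
    some index on: it has no rational spectral density, it is not a moving average of finite order, not
    an ARMA process and has no finite range of correlation.

The mean square of the gap sums comes from the library (`Pool.Agent.U139.GC.second_zeta`, from
`Pool.Agent.R320.VQ.conv`).  New here: the passage to the limit of the second moments (third moments are
bounded), the linear recurrence of the second moments of the block sums of hidden Markov processes
(transfer operator of size `3 s`) and of processes with recurrent covariances, and the abelian argument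
that a linear recurrent sequence that tends to infinity cannot be `o(n)`.
-/

set_option autoImplicit false

open Filter Topology Finset MeasureTheory ProbabilityTheory
open scoped NNReal

namespace Pool.Agent.Results.MP_f0209c_nt.NoFiniteStateModel

open Pool.Agent.U403.FS (HMM)

/-- multiplicity of `s` as a zero of the Riemann zeta function (order of vanishing at `s`) -/
noncomputable def zmult (s : ℂ) : ℕ := analyticOrderNatAt riemannZeta s

/-- the number of nontrivial zeros of `ζ` with ordinate in `(0, t]`, with multiplicity -/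
noncomputable def NZ (t : ℝ) : ℕ :=
  ∑ᶠ s ∈ {s : ℂ | riemannZeta s = 0 ∧ 0 < s.re ∧ s.re < 1 ∧ 0 < s.im ∧ s.im ≤ t}, zmult s

/-- for `n ≥ 1`: the `n`-th positive ordinate `γ n` of a nontrivial zero of `ζ`, the ordinates being
listed in nondecreasing order and repeated according to multiplicity -/
noncomputable def γ (n : ℕ) : ℝ := sInf {t : ℝ | n ≤ NZ t}

/-- `γ̃_n = γ_n log γ_n / 2π` -/
noncomputable def γt (n : ℕ) : ℝ := γ n * Real.log (γ n) / (2 * Real.pi)

/-- the normalised spacings `d_n = γ̃_{n+1} - γ̃_n` -/
noncomputable def d (n : ℕ) : ℝ := γt (n + 1) - γt n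

/-- the laws `lam m` are the limits, as `k → ∞`, of the laws of the blocks `e n, …, e (n + m)` with
`1 ≤ n ≤ N k` (weak convergence, tested on the bounded Lipschitz functions) -/
def Limit (e : ℕ → ℝ) (N : ℕ → ℕ) (lam : ∀ m : ℕ, Measure (Fin (m + 1) → ℝ)) : Prop :=
  Tendsto N atTop atTop ∧ ∀ (m : ℕ) (g : (Fin (m + 1) → ℝ) → ℝ), (∃ C : ℝ≥0, LipschitzWith C g) →
    (∃ B, ∀ x, |g x| ≤ B) →
    Tendsto (fun k => (1 / (N k : ℝ)) * ∑ n ∈ Icc 1 (N k), g (fun i => e (n + i))) atTop
      (𝓝 (∫ x, g x ∂(lam m)))

/-- the second moment, under `lam m`, of the centred sum of the `m + 1` coordinates -/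
noncomputable def second (lam : ∀ m : ℕ, Measure (Fin (m + 1) → ℝ)) (m : ℕ) : ℝ :=
  ∫ x : Fin (m + 1) → ℝ, (∑ i, (x i - 1)) ^ 2 ∂(lam m)

/-- `a` satisfies a linear recurrence `p_0 a_n + … + p_r a_{n+r} = 0` with constant coefficients, the
coefficients of a polynomial `p ≠ 0`, from some index on -/
def LinRec (a : ℕ → ℝ) : Prop :=
  ∃ (p : Polynomial ℝ) (n₀ : ℕ), p ≠ 0 ∧
    ∀ n, n₀ ≤ n → ∑ j ∈ range (p.natDegree + 1), p.coeff j * a (n + j) = 0

/-- `lam m` is the law of `m + 1` consecutive values of a square-integrable, weakly stationary process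
with mean `μ` and covariances `c 0, c 1, …` -/
structure WeaklyStationary (lam : ∀ m : ℕ, Measure (Fin (m + 1) → ℝ)) (μ : ℝ) (c : ℕ → ℝ) : Prop where
  sq : ∀ m (i : Fin (m + 1)), MemLp (fun x : Fin (m + 1) → ℝ => x i) 2 (lam m)
  mean : ∀ m (i : Fin (m + 1)), ∫ x, x i ∂(lam m) = μ
  cov : ∀ m (i j : Fin (m + 1)), i ≤ j → ∫ x, (x i - μ) * (x j - μ) ∂(lam m) = c (j - i)

lemma d_eq : d = LG.dlt := by
  funext n
  show γ (n + 1) * Real.log (γ (n + 1)) / (2 * Real.pi) - γ n * Real.log (γ n) / (2 * Real.pi) =
    (γ (n + 1) * Real.log (γ (n + 1)) - γ n * Real.log (γ n)) / (2 * Real.pi)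
  ring

/-- **No finite-state model.**  Here `H : HMM s` is a hidden Markov process with `s` hidden states (initial
distribution, transition matrix and, in each state, an arbitrary square-integrable distribution of the
observed value) and `H.law m` is the law of its first `m + 1` observed values. -/
theorem result (RH : RiemannHypothesis) (e : ℕ → ℝ) (he : Tendsto (fun j => d j - e j) atTop (𝓝 0)) :
    -- (1), (2): any limit process
    (∀ (N : ℕ → ℕ) (lam : ∀ m : ℕ, Measure (Fin (m + 1) → ℝ)), (∀ m, IsProbabilityMeasure (lam m)) →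
      Limit e N lam →
      (∀ ε : ℝ, 0 < ε → ∃ m₀ : ℕ, ∀ m : ℕ, m₀ ≤ m →
        Integrable (fun x : Fin (m + 1) → ℝ => (∑ i, (x i - 1)) ^ 2) (lam m) ∧
        |second lam m - Real.log (m + 1) / Real.pi ^ 2| ≤ ε * Real.log (m + 1)) ∧
      ¬ LinRec (second lam)) ∧
    -- (3): hidden Markov processes
    (∀ (s : ℕ) (H : HMM s) (N : ℕ → ℕ), ¬ Limit e N H.law) ∧
    -- (4): recurrent covariances
    (∀ (lam : ∀ m : ℕ, Measure (Fin (m + 1) → ℝ)) (μ : ℝ) (c : ℕ → ℝ) (N : ℕ → ℕ),
      (∀ m, IsProbabilityMeasure (lam m)) → WeaklyStationary lam μ c → LinRec c → ¬ Limit e N lam) := by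
  have hRHs : SP.RHs := by
    intro s h1 h2 h0
    apply RH s h0
    · rintro ⟨k, hk⟩
      have := congrArg Complex.re hk
      simp at this
      have hk0 : (0 : ℝ) ≤ k := Nat.cast_nonneg k
      linarith
    · intro h; rw [h] at h2; simp at h2
  rw [d_eq] at he
  have tr : ∀ {N : ℕ → ℕ} {lam : ∀ m : ℕ, Measure (Fin (m + 1) → ℝ)}, Limit e N lam →
      Pool.Agent.U403.FS.Limit LG.dlt N lam := fun h => Pool.Agent.U403.FS.limit_transfer he h
  refine ⟨fun N lam hp hl => ⟨fun ε hε => ?_, ?_⟩, fun s H N hl => ?_, fun lam μ c N hp hw hc hl => ?_⟩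
  · exact Pool.Agent.U403.FS.limit_var hRHs (tr hl) ε hε
  · exact Pool.Agent.U403.FS.limit_not_linRec hRHs (tr hl)
  · exact Pool.Agent.U403.FS.limit_not_linRec hRHs (tr hl) (Pool.Agent.U403.FS.hmm_linRec H)
  · exact Pool.Agent.U403.FS.limit_not_linRec hRHs (tr hl)
      (Pool.Agent.U403.FS.ws_linRec ⟨hw.sq, hw.mean, hw.cov⟩ hc)

end Pool.Agent.Results.MP_f0209c_nt.NoFiniteStateModel
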