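import Pool.Agent.U85.Ml.Tz

set_option autoImplicit false

/-!
# No gap in the spectrum of the zeros, and simple zeros, in most bounded windows

The Riemann hypothesis is assumed (as in the question). For `t ∈ [T, 2T]` and a constant `H` let `zeros t (H/log T)` be the
set of the nontrivial zeros `ρ` of zeta with `|γ - t| ≤ H/log T`, a window which contains `H/π` zeros in the mean, and let

`F(α, t) = |∑_ρ m_ρ T^(α(ρ - 1/2))|² / (H/π) = (π/H) ∑_{γ,γ'} T^(iα(γ-γ'))`

be the form factor of the zeros of this single window. The strong pair correlation conjecture says that the mean of `F(α, t)`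
over `t` tends to `1` for `α ≥ 1`; by the alternative hypothesis it would be the function with the period `2` which is `|α|` on
`[-1, 1]` apart from the origin, so that it would be small near the even integers up to the peaks at them. We prove LOWER bounds
for single windows at ALL frequencies: for every `d < 5/6` and `ε > 0` there is `H₀` such that for `H ≥ H₀` and large `T`, for all
`t ∈ [T, 2T]` outside a set of measure at most `(1/(5-6d) + ε) T`,

`∫_{-1}^{1} (1 - |u|) F(c + u, t) du ≥ d` for all real `c` at once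

(without an upper bound for `|c|` in terms of `T`), and the window contains at least `d H/π` simple zeros. So four fifths of the
windows have this property for some fixed `d > 0`, two thirds of them for `d = 1/3`, and one half for `d = 1/2`. The exceptional
set carries at most the share `1/(5-6d) + ε` of the mass of `|B(t)|² dt` for EVERY Dirichlet polynomial `B` of length at most
`T^θ`, `θ = θ(d, ε, H) > 0`.

Idea: the law of large numbers for the form factor on `0 ≤ α ≤ a < 1/2` in almost every window and the mean over `t` of the form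
factor on `a ≤ α ≤ a' < 1` (with the Markov inequality: this part has the mean `1/6` and is nonnegative) bound the triangular
average at the origin by `7/6 + y` outside a share `1/(6y)` of the windows. The form factor is a positive definite function of
`α`, with the diagonal `∑ m_ρ²`, whose contribution to the sum of the triangular averages at the origin and at `c` is at least
twice its contribution `≥ 1` to the average at the origin.
-/

namespace Pool.Agent.Results.MP_f0209c_nt.NoSpectralGap

open MeasureTheory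

noncomputable section

/-- the Dirichlet polynomial with the coefficients `b_1, ..., b_N` on the critical line -/
def B (N : ℕ) (b : ℕ → ℂ) (t : ℝ) : ℂ := ∑ n ∈ Finset.Icc 1 N, b n * (n : ℂ) ^ (-(1 / 2 + t * Complex.I))

/-- the mass of the polynomial on a set of heights -/
def mass (N : ℕ) (b : ℕ → ℂ) (E : Set ℝ) : ℝ := ∫ t in E, ‖B N b t‖ ^ 2

/-- the nontrivial zeros of zeta with `|γ - t| ≤ r` -/
def zeros (t r : ℝ) : Set ℂ := {s : ℂ | riemannZeta s = 0 ∧ 0 < s.re ∧ s.re < 1 ∧ |s.im - t| ≤ r}

/-- the form factor of the zeros with `|γ - t| ≤ H/log T` -/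
def F (T H α t : ℝ) : ℝ :=
  ‖∑ᶠ s ∈ zeros t (H / Real.log T), (analyticOrderNatAt riemannZeta s : ℂ) * (T : ℂ) ^ (α * (s - 1 / 2))‖ ^ 2 /
    (H / Real.pi)

/-- the average of the form factor over the frequencies around `c`, with the triangular density on `[c - 1, c + 1]` -/
def average (T H t c : ℝ) : ℝ := ∫ u in (0 : ℝ)..1, (1 - u) * (F T H (c + u) t + F T H (c - u) t)

/-- the simple zeros with `|γ - t| ≤ r` -/
def simpleZeros (t r : ℝ) : Set ℂ := {s : ℂ | s ∈ zeros t r ∧ analyticOrderNatAt riemannZeta s = 1}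

/-- the points of `[T, 2T]` whose window has a gap in its spectrum, or few simple zeros -/
def bad (T H d : ℝ) : Set ℝ :=
  {t : ℝ | t ∈ Set.Icc T (2 * T) ∧
    ((∃ c : ℝ, average T H t c < d) ∨ ((simpleZeros t (H / Real.log T)).ncard : ℝ) < d * (H / Real.pi))}

/-- **No gap in the spectrum, and simple zeros, in most bounded windows.** -/
theorem result (hRH : RiemannHypothesis) (d : ℝ) (hd : d < 5 / 6) (ε : ℝ) (hε : 0 < ε) :
    ∃ H₀ : ℝ, 1 ≤ H₀ ∧ ∀ H : ℝ, H₀ ≤ H → ∃ θ T₀ : ℝ, 0 < θ ∧ 1 ≤ T₀ ∧ ∀ T : ℝ, T₀ ≤ T →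
      volume.real (bad T H d) ≤ (1 / (5 - 6 * d) + ε) * T ∧
      ∀ N : ℕ, (N : ℝ) ≤ T ^ θ → ∀ b : ℕ → ℂ,
        mass N b (bad T H d) ≤ (1 / (5 - 6 * d) + ε) * mass N b (Set.Icc T (2 * T)) := by
  obtain ⟨H₀, hH₀, h⟩ := Pool.Agent.U85.Ml.low_all hRH d hd ε hε
  refine ⟨H₀, hH₀, fun H hH => ?_⟩
  obtain ⟨θ, T₀, hθ, hT₀, h⟩ := h H hH
  have key : ∀ T : ℝ, T₀ ≤ T → ∀ N : ℕ, (N : ℝ) ≤ T ^ θ → ∀ b : ℕ → ℂ,
      mass N b (bad T H d) ≤ (1 / (5 - 6 * d) + ε) * mass N b (Set.Icc T (2 * T)) := by
    intro T hT N hN b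
    obtain ⟨G, -, hGs, hGi, hG⟩ := h T hT N hN b
    refine le_trans ?_ hGi
    have hVc : Continuous (fun t : ℝ => ‖B N b t‖ ^ 2) := ((Pool.Agent.U85.Zd.dp_cont N b).norm).pow 2
    refine setIntegral_mono_set (hVc.continuousOn.integrableOn_Icc.mono_set hGs)
      (Filter.Eventually.of_forall fun t => by positivity) (LE.le.eventuallyLE ?_)
    rintro t ⟨ht, hbad⟩
    by_contra htG
    obtain ⟨h1, h2⟩ := hG t ht htG
    rcases hbad with ⟨c, hc⟩ | hs
    · exact absurd hc (not_lt.2 (h1 c))
    · exact absurd hs (not_lt.2 h2)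
  refine ⟨θ, T₀, hθ, hT₀, fun T hT => ⟨?_, fun N hN b => key T hT N hN b⟩⟩
  have hT1 : 1 ≤ T := hT₀.trans hT
  have h1 := key T hT 1 (by push_cast; exact Real.one_le_rpow hT1 hθ.le) (fun _ => 1)
  have h2 : ∀ t : ℝ, B 1 (fun _ => 1) t = 1 := Pool.Agent.U85.Zd.dp_one
  unfold mass at h1
  simp only [h2, norm_one, one_pow, integral_const, smul_eq_mul, mul_one,
    measureReal_restrict_apply_univ] at h1
  rw [Real.volume_real_Icc_of_le (by linarith), show 2 * T - T = T by ring] at h1
  exact h1

end

end Pool.Agent.Results.MP_f0209c_nt.NoSpectralGap
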