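import Pool.Agent.U252.ST.C

/-!
# Stability of the extremal problem for the Alternative Hypothesis

Assume the Riemann hypothesis and let `J(T) = ∫_0^2 (2 - α) F(α, T) dα`. Then `J(T) ≥ 2 - o(1)`, and
the Alternative Hypothesis for almost all spacings is the case `J(T) → 2` (starting file
`ExtremalityOfAH`). Here the stability of this extremal problem is proved, for each single large `T`:
if `J(T) ≤ 2 + 2h³` then `∫_a^b F ≥ ∫_a^b (2 - α) dα - 5h` for all `1 ≤ a ≤ b ≤ 2`, with a corresponding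
upper bound; `F` is periodic with period `2` up to `3h` in the sense of the Levy distance, uniformly on
the whole line; the mass of `F` in `(2 - k, 2 + k)` is at least `1 - 9h³/k`; and at most
`3 (U/η)² h³ (T/2π) log T` pairs of zeros have a normalised difference `x` with `|x| ≤ U` at distance
`≥ η` from the half integers. So each deviation of `F` from the values predicted by the Alternative
Hypothesis, in particular each defect `∫_a^b F < ∫_a^b (2 - α) dα - 5h`, forces an excess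
`J(T) > 2 + 2h³`.

Proof. `J(T)/2 - 1` is the sum over the pairs of different zeros of `(sin 2πx / 2πx)²`, up to `o(1)`.
The difference of `∫ tr(α - s) F(α) dα` and of its shift by `2`, integrated over `s ∈ [A, B]`, is an
integral of `sin 2πx / 2πx` times bounded functions against the pair measure, in which the pairs
`γ = γ'` do not contribute; by the Cauchy-Schwarz inequality its square is at most `8 (J(T)/2 - 1)`
times the tent at the origin, which is about `1/h`, for all `A, B`. Montgomery's theorem gives the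
values on `[0, 1]`, and the upper bound follows from the lower bounds and the value of `J(T)`.
-/

set_option autoImplicit false

open MeasureTheory Set Filter Topology
open Complex (I)

namespace Pool.Agent.Results.MP_f0209c_nt.StabilityOfAH

/-- the nontrivial zeros of `ζ` with ordinate in `(0, T]` -/
def zeros (T : ℝ) : Set ℂ :=
  {s : ℂ | 0 < s.re ∧ s.re < 1 ∧ 0 < s.im ∧ s.im ≤ T ∧ riemannZeta s = 0}

/-- the multiplicity of `s` as a zero of `ζ` -/
noncomputable def mult (s : ℂ) : ℕ := analyticOrderNatAt riemannZeta s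

/-- `(T / 2π) log T` -/
noncomputable def X (T : ℝ) : ℝ := T / (2 * Real.pi) * Real.log T

/-- Montgomery's function `F(α) = F(α, T)` -/
noncomputable def F (T α : ℝ) : ℂ :=
  (X T : ℂ)⁻¹ * ∑ᶠ s ∈ zeros T, ∑ᶠ s' ∈ zeros T, (mult s : ℂ) * (mult s' : ℂ) *
    ((T : ℂ) ^ (I * α * (s.im - s'.im)) * (4 / (4 + (s.im - s'.im) ^ 2)))

/-- `J(T) = ∫_0^2 (2 - α) F(α, T) dα` -/
noncomputable def J (T : ℝ) : ℝ := ∫ α in (0 : ℝ)..2, (2 - α) * (F T α).re

/-- the normalised difference of the ordinates -/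
noncomputable def x (T : ℝ) (s s' : ℂ) : ℝ := (s.im - s'.im) * Real.log T / (2 * Real.pi)

/-- the number of ordered pairs of zeros in `zeros T`, counted with multiplicity, whose normalised
difference is at most `U` in modulus and at distance at least `η` from every half integer -/
noncomputable def Far (T U η : ℝ) : ℕ :=
  ∑ᶠ s ∈ zeros T, ∑ᶠ s' ∈ {s' : ℂ | s' ∈ zeros T ∧ |x T s s'| ≤ U ∧
    ∀ k : ℤ, η ≤ |x T s s' - k / 2|}, mult s * mult s'

open Pool.Agent.Y749.Rig (Fr Mp ZZ mm RR nT)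
open Pool.Agent.U252.ST

lemma F_eq {T : ℝ} (hT : 10 ≤ T) (α : ℝ) : F T α = (Fr T α : ℂ) :=
  Pool.Agent.Y749.Rig.P.F_eq hT α

lemma re_eq {T : ℝ} (hT : 10 ≤ T) (α : ℝ) : (F T α).re = Fr T α := by
  rw [F_eq hT, Complex.ofReal_re]

lemma J_eq {T : ℝ} (hT : 10 ≤ T) : J T = JJ T := by
  unfold J JJ
  simp_rw [re_eq hT]

lemma zeros_ZZ (T : ℝ) : zeros T = ((ZZ T : Finset ℂ) : Set ℂ) :=
  Pool.Agent.Y749.Rig.P.zeros_ZZ T

open scoped Classical in
lemma Far_le {T U η : ℝ} (hT : 10 ≤ T) (hη : 0 < η) : (Far T U η : ℝ) ≤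
    (Mp T).real {y | |y| ≤ U ∧ 4 * η ≤ |Real.sin (2 * Real.pi * y)|} * X T := by
  obtain ⟨S, hS⟩ : ∃ S : Set ℝ, S = {y | |y| ≤ U ∧ 4 * η ≤ |Real.sin (2 * Real.pi * y)|} :=
    ⟨_, rfl⟩
  have hSm : MeasurableSet S := by
    rw [hS]
    apply MeasurableSet.inter
    · exact measurableSet_le continuous_abs.measurable measurable_const
    · have h : Continuous fun x : ℝ => |Real.sin (2 * Real.pi * x)| := by fun_prop
      exact measurableSet_le measurable_const h.measurable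
  have hn := Pool.Agent.Y749.Rig.nT_pos hT
  have e1 : X T = nT T := Pool.Agent.Y749.Rig.P.X_nT T
  rw [← hS, Pool.Agent.Y749.Rig.Mp_real hT hSm, e1, div_mul_cancel₀ _ hn.ne']
  have e2 : Far T U η = ∑ s ∈ ZZ T, ∑ s' ∈ (ZZ T).filter (fun s' => |x T s s'| ≤ U ∧
      ∀ k : ℤ, η ≤ |x T s s' - k / 2|), mult s * mult s' := by
    unfold Far
    rw [zeros_ZZ, finsum_mem_coe_finset]
    refine Finset.sum_congr rfl fun s _ => ?_
    have e3 : {s' : ℂ | s' ∈ ((ZZ T : Finset ℂ) : Set ℂ) ∧ |x T s s'| ≤ U ∧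
        ∀ k : ℤ, η ≤ |x T s s' - k / 2|} = (((ZZ T).filter (fun s' => |x T s s'| ≤ U ∧
        ∀ k : ℤ, η ≤ |x T s s' - k / 2|) : Finset ℂ) : Set ℂ) := by
      ext s'
      simp
    rw [e3, finsum_mem_coe_finset]
  rw [e2]
  push_cast
  unfold RR
  refine Finset.sum_le_sum fun s _ => ?_
  rw [Finset.sum_filter]
  refine Finset.sum_le_sum fun s' _ => ?_
  have hm : ∀ z : ℂ, (mult z : ℝ) = mm z := fun z => rfl
  have hm0 : ∀ z : ℂ, 0 ≤ mm z := fun z => by
    rw [← hm]; exact Nat.cast_nonneg _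
  have hp : 0 ≤ mm s * mm s' := mul_nonneg (hm0 s) (hm0 s')
  have ex1 : (s.im - s'.im) * Real.log T / (2 * Real.pi) = x T s s' := rfl
  split_ifs with h
  · have h1 : x T s s' ∈ S := by
      rw [hS]
      refine ⟨h.1, ?_⟩
      have h2 := Pool.Agent.Y749.AH.sin_far hη h.2
      rwa [show Real.pi * 2 * x T s s' = 2 * Real.pi * x T s s' by ring] at h2
    have h3 : S.indicator (fun _ => (1 : ℝ)) (x T s s') = 1 := Set.indicator_of_mem h1 _
    rw [hm, hm]
    simp only [ex1, h3]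
    linarith
  · have h4 : 0 ≤ S.indicator (fun _ => (1 : ℝ)) (x T s s') :=
      Set.indicator_nonneg (fun _ _ => zero_le_one) _
    simp only [ex1]
    positivity

/-- **Stability of the extremal problem for the Alternative Hypothesis.** Assume RH, let
`J(T) = ∫_0^2 (2 - α) F(α, T) dα`, and let `0 < h ≤ 1/10`.
(0) `J(T) ≥ 2 - ε` for large `T`, for every `ε > 0`.
(1) For all large `T` with `J(T) ≤ 2 + 2h³` and all `1 ≤ a ≤ b ≤ 2`:
`∫_a^b F ≥ ∫_a^b (2 - α) dα - 5h` and `∫_a^b (2 - α) F ≤ ∫_a^b (2 - α)² dα + 11h`.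
(2) For all large `T` with `J(T) ≤ 2 + 2h³` and all real `a ≤ b`:
`∫_a^b F ≤ ∫_{a+2-2h}^{b+2+2h} F + 3h` and `∫_{a+2}^{b+2} F ≤ ∫_{a-2h}^{b+2h} F + 3h`.
(3) For `0 < k < 1` and all large `T` with `J(T) ≤ 2 + 2h³`: `∫_{2-k}^{2+k} F ≥ 1 - 9h³/k`.
(4) For `U > 0` and all large `T` with `J(T) ≤ 2 + 2h³`: for all `η > 0` at most
`3 (U/η)² h³ (T/2π) log T` ordered pairs of zeros have a normalised difference `x`, `|x| ≤ U`, at
distance `≥ η` from all half integers. -/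
theorem result (hRH : RiemannHypothesis) :
    (∀ ε : ℝ, 0 < ε → ∃ T₀ : ℝ, ∀ T : ℝ, T₀ ≤ T → 2 - ε ≤ J T) ∧
    ∀ h : ℝ, 0 < h → h ≤ 1 / 10 →
      (∃ T₀ : ℝ, ∀ T : ℝ, T₀ ≤ T → J T ≤ 2 + 2 * h ^ 3 → ∀ a b : ℝ, 1 ≤ a → a ≤ b → b ≤ 2 →
        (∫ α in a..b, (2 - α)) - 5 * h ≤ ∫ α in a..b, (F T α).re ∧
        ∫ α in a..b, (2 - α) * (F T α).re ≤ (∫ α in a..b, (2 - α) ^ 2) + 11 * h) ∧
      (∃ T₀ : ℝ, ∀ T : ℝ, T₀ ≤ T → J T ≤ 2 + 2 * h ^ 3 → ∀ a b : ℝ, a ≤ b →
        ∫ α in a..b, (F T α).re ≤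
          (∫ α in (a + 2 - 2 * h)..(b + 2 + 2 * h), (F T α).re) + 3 * h ∧
        ∫ α in (a + 2)..(b + 2), (F T α).re ≤
          (∫ α in (a - 2 * h)..(b + 2 * h), (F T α).re) + 3 * h) ∧
      (∀ k : ℝ, 0 < k → k < 1 → ∃ T₀ : ℝ, ∀ T : ℝ, T₀ ≤ T → J T ≤ 2 + 2 * h ^ 3 →
        1 - 9 * h ^ 3 / k ≤ ∫ α in (2 - k)..(2 + k), (F T α).re) ∧
      (∀ U : ℝ, 0 < U → ∃ T₀ : ℝ, ∀ T : ℝ, T₀ ≤ T → J T ≤ 2 + 2 * h ^ 3 → ∀ η : ℝ, 0 < η →
        (Far T U η : ℝ) ≤ 3 * (U / η) ^ 2 * h ^ 3 * X T) := by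
  refine ⟨fun ε hε => ?_, fun h hh h1 => ⟨?_, ?_, fun k hk hk1 => ?_, fun U hU => ?_⟩⟩
  · obtain ⟨T₀, hT₀⟩ := ((Pool.Agent.Y749.AH.fej_low (l := atTop) le_rfl hε).and
      (eventually_ge_atTop 10)).exists_forall_of_atTop
    refine ⟨T₀, fun T hT => ?_⟩
    obtain ⟨g1, g2⟩ := hT₀ T hT
    rw [J_eq g2]
    exact g1
  · obtain ⟨T₀, hT₀⟩ := ((low hRH hh h1).and ((up hRH hh h1).and
      (eventually_ge_atTop 10))).exists_forall_of_atTop
    refine ⟨T₀, fun T hT hJ a b ha hab hb => ?_⟩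
    obtain ⟨g1, g2, g3⟩ := hT₀ T hT
    rw [J_eq g3] at hJ
    simp_rw [re_eq g3]
    have ic : ∀ (g : ℝ → ℝ), Continuous g → IntervalIntegrable g volume a b :=
      fun g hg => hg.intervalIntegrable a b
    have e1 : ∫ α in a..b, (2 - α) = ((2 - a) ^ 2 - (2 - b) ^ 2) / 2 := by
      rw [intervalIntegral.integral_sub (ic _ (by fun_prop)) (ic _ (by fun_prop)),
        intervalIntegral.integral_const, integral_id, smul_eq_mul]
      ring
    have e2 : ∫ α in a..b, (2 - α) ^ 2 = ((2 - a) ^ 3 - (2 - b) ^ 3) / 3 := by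
      have h5 := intervalIntegral.integral_comp_sub_left (a := a) (b := b)
        (fun y : ℝ => y ^ 2) 2
      rw [h5, integral_pow]
      norm_num
    rw [e1, e2]
    exact ⟨g1 hJ a b ha hab hb, g2 hJ a b ha hab hb⟩
  · obtain ⟨T₀, hT₀⟩ := ((levy hRH hh h1).and
      (eventually_ge_atTop 10)).exists_forall_of_atTop
    refine ⟨T₀, fun T hT hJ a b hab => ?_⟩
    obtain ⟨g1, g3⟩ := hT₀ T hT
    rw [J_eq g3] at hJ
    simp_rw [re_eq g3]
    exact g1 hJ a b hab
  · obtain ⟨T₀, hT₀⟩ := ((mass2 hRH hh hk hk1).and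
      (eventually_ge_atTop 10)).exists_forall_of_atTop
    refine ⟨T₀, fun T hT hJ => ?_⟩
    obtain ⟨g1, g3⟩ := hT₀ T hT
    rw [J_eq g3] at hJ
    simp_rw [re_eq g3]
    exact g1 hJ
  · obtain ⟨T₀, hT₀⟩ := ((pairs hRH hh hU).and
      (eventually_ge_atTop 10)).exists_forall_of_atTop
    refine ⟨T₀, fun T hT hJ η hη => ?_⟩
    obtain ⟨g1, g3⟩ := hT₀ T hT
    rw [J_eq g3] at hJ
    refine (Far_le g3 hη).trans ?_
    have hX : 0 ≤ X T := by
      rw [show X T = nT T from Pool.Agent.Y749.Rig.P.X_nT T]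
      exact (Pool.Agent.Y749.Rig.nT_pos g3).le
    refine mul_le_mul_of_nonneg_right ?_ hX
    have h5 := g1 hJ (4 * η) (by positivity)
    refine h5.trans ?_
    have e3 : (U / (4 * η)) ^ 2 = (U / η) ^ 2 / 16 := by
      field_simp
      norm_num
    rw [e3]
    have h6 : 0 ≤ (U / η) ^ 2 * h ^ 3 := by positivity
    nlinarith

end Pool.Agent.Results.MP_f0209c_nt.StabilityOfAH
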